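import Pool.Agent.N410.DC.Gen
import Pool.Agent.R545.IN.Main
import Pool.Agent.R769.MN.Mat
import Pool.Agent.N399.DM.Main

/-!
# Classes closed under identification of vertices, after the contraction of a chain of pieces
-/

set_option autoImplicit false
set_option linter.unusedSectionVars false
set_option synthInstance.maxHeartbeats 400000
set_option synthInstance.maxSize 2048

namespace Pool.Agent.Run7.h335.FM

open Finset Pool.Agent.TH362.TF Pool.Agent.TH362.TF.Four Pool.Agent.R890.FF Pool.Agent.TH676.Z
open Pool.Agent.R926.SC Pool.Agent.N410.DC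

variable {V E : Type} [Fintype V] [DecidableEq V] [Fintype E] [DecidableEq E]

/-- every quotient in which the edges of `F` are loops belongs to the class -/
def QF (Cl : (E → V) → (E → V) → Prop) (s t : E → V) (F : Finset E) : Prop :=
  ∀ p : V → V, (∀ e ∈ F, p (s e) = p (t e)) → Cl (fun e => p (s e)) (fun e => p (t e))

theorem inh_QF {Cl : (E → V) → (E → V) → Prop}
    (hf : ∀ {s t : E → V}, Cl s t → N1 s t univ → NZ s t univ ∨ PQ s t univ) :
    Inh (V := V) (E := E) (QF Cl) where
  map := fun ρ h p hF => h (p ∘ ρ) hF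
  loops := fun h hl p _ => h p (fun e he => congrArg p (hl e he))
  flow := fun h h1 => hf (h id (fun e he => absurd he (notMem_empty e))) h1

/-- `r` contracts the edges of `F` and nothing else -/
def Contr (s t : E → V) (F : Finset E) (r : V → V) : Prop :=
  (∀ e ∈ F, r (s e) = r (t e)) ∧ ∀ v, ∀ Y : Finset V, Disjoint (crs s t Y) F → (v ∈ Y ↔ r v ∈ Y)

theorem QF.of_contr {Cl : (E → V) → (E → V) → Prop}
    (hm : ∀ {s t : E → V} (π : V → V), Cl s t → Cl (fun e => π (s e)) (fun e => π (t e)))
    {s t : E → V} {F : Finset E} {r : V → V} (hr : Contr s t F r)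
    (h : Cl (fun e => r (s e)) (fun e => r (t e))) : QF Cl s t F := by
  classical
  intro p hp
  have key : ∀ v, p (r v) = p v := by
    intro v
    have h1 := hr.2 v (univ.filter (fun u => p u = p v)) (by
      rw [disjoint_left]
      intro e he heF
      rw [mem_crs] at he
      apply he
      simp only [mem_filter, mem_univ, true_and, hp e heF])
    simp only [mem_filter, mem_univ, true_and, true_iff] at h1
    exact h1
  have h2 := hm p h
  simp only [key] at h2
  exact h2

/-! ## seven vertices which are never far from each other -/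

/-- the edge `e` joins `x` and `y` -/
def Jn (s t : E → V) (e : E) (x y : V) : Prop := (s e = x ∧ t e = y) ∨ (s e = y ∧ t e = x)

/-- any seven different vertices which are ends of edges that are not loops include two which are
joined by an edge or by two different paths with two edges -/
def Seven (s t : E → V) : Prop :=
  ∀ x : Fin 7 → V, Function.Injective x → (∀ i, ∃ e, s e ≠ t e ∧ (s e = x i ∨ t e = x i)) →
    ∃ i j, i ≠ j ∧ Pool.Agent.N399.DM.Cls s t (x i) (x j)

theorem Seven.map {s t : E → V} (π : V → V) (h : Seven s t) :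
    Seven (fun e => π (s e)) (fun e => π (t e)) := by
  intro x hx hn
  have h1 : ∀ i, ∃ y, π y = x i ∧ ∃ e, s e ≠ t e ∧ (s e = y ∨ t e = y) := by
    intro i
    obtain ⟨e, hne, he | he⟩ := hn i
    · exact ⟨s e, he, e, fun h => hne (congrArg π h), Or.inl rfl⟩
    · exact ⟨t e, he, e, fun h => hne (congrArg π h), Or.inr rfl⟩
  choose y hy hn' using h1
  obtain ⟨i, j, hij, hc⟩ := h y (fun i j hij => hx (by rw [← hy i, ← hy j, hij])) hn'
  refine ⟨i, j, hij, ?_⟩
  rw [← hy i, ← hy j]
  exact hc.map π

theorem Seven.flow {s t : E → V} (h : Seven s t) (h1 : N1 s t univ) :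
    NZ s t univ ∨ PQ s t univ := by
  classical
  by_contra hc
  rw [not_or] at hc
  obtain ⟨π, hM⟩ := exists_Mq s t univ h1 hc.1 hc.2
  obtain ⟨I, hIc, hnb, hi⟩ := Pool.Agent.R545.IN.Mq_ind7 hM
  set φ := (Finset.equivFinOfCardEq hIc).symm with hφ
  obtain ⟨i, j, hij, hcl⟩ := h.map π (fun i => (φ i : V))
    (fun i j hij => φ.injective (Subtype.ext hij)) (by
      intro i
      obtain ⟨z, hz, e, _, hE⟩ := hnb _ (φ i).2
      have hne := ends_ne hE hz.symm
      rcases hE with ⟨h2, _⟩ | ⟨_, h2⟩
      · exact ⟨e, hne, Or.inl h2⟩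
      · exact ⟨e, hne, Or.inr h2⟩)
  have hXY : (φ i : V) ≠ φ j := fun h2 => hij (φ.injective (Subtype.ext h2))
  exact hi _ (φ i).2 _ (φ j).2 (Pool.Agent.N399.DM.cls_nb hM hXY hcl)

/-! ## covers, matchings, dominating sets -/

/-- nine vertices cover all edges which are not loops -/
def Cov9 (s t : E → V) : Prop :=
  ∃ C : Finset V, C.card ≤ 9 ∧ ∀ e, s e ≠ t e → s e ∈ C ∨ t e ∈ C

theorem Cov9.map {s t : E → V} (π : V → V) (h : Cov9 s t) :
    Cov9 (fun e => π (s e)) (fun e => π (t e)) := by
  classical
  obtain ⟨C, h1, h2⟩ := h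
  refine ⟨C.image π, card_image_le.trans h1, fun e he => ?_⟩
  rcases h2 e (fun h => he (congrArg π h)) with h | h
  · exact Or.inl (mem_image_of_mem _ h)
  · exact Or.inr (mem_image_of_mem _ h)

theorem Cov9.flow {s t : E → V} (h : Cov9 s t) (h1 : N1 s t univ) :
    NZ s t univ ∨ PQ s t univ := by
  obtain ⟨C, h2, h3⟩ := h
  exact cover9 s t univ C h1 (fun e _ he => h3 e he) h2

/-- no matching has nine edges -/
def Mat8 (s t : E → V) : Prop := ∀ M : Finset E, Pool.Agent.R769.MN.IsMat s t M → M.card ≤ 8

theorem Mat8.map {s t : E → V} (π : V → V) (h : Mat8 s t) :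
    Mat8 (fun e => π (s e)) (fun e => π (t e)) := fun M hM => h M (hM.of_map π)

theorem Mat8.flow {s t : E → V} (h : Mat8 s t) (h1 : N1 s t univ) :
    NZ s t univ ∨ PQ s t univ :=
  Pool.Agent.R769.MN.match8 s t univ h1 (fun M _ hM => h M hM)

/-- covers, matchings, dominating sets -/
def Three (s t : E → V) : Prop := Cov9 s t ∨ Mat8 s t ∨ Pool.Agent.N399.DM.Cl s t

theorem Three.map {s t : E → V} (π : V → V) (h : Three s t) :
    Three (fun e => π (s e)) (fun e => π (t e)) := by
  rcases h with h | h | h
  · exact Or.inl (h.map π)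
  · exact Or.inr (Or.inl (h.map π))
  · exact Or.inr (Or.inr (h.map π))

theorem Three.flow {s t : E → V} (h : Three s t) (h1 : N1 s t univ) :
    NZ s t univ ∨ PQ s t univ := by
  rcases h with h | h | h
  · exact h.flow h1
  · exact h.flow h1
  · exact h.flow h1

/-- the condition for the contracted graph is inherited -/
theorem inh_three : Inh (V := V) (E := E) (QF Three) := inh_QF Three.flow

theorem three_of {s t : E → V} {F : Finset E} {r : V → V} (hr : Contr s t F r)
    (h : Three (fun e => r (s e)) (fun e => r (t e))) : QF Three s t F :=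
  QF.of_contr (fun π h => h.map π) hr h

end Pool.Agent.Run7.h335.FM
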