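import Pool.Agent.N410.DC.Far

/-!
# Pairwise disjoint sets with odd boundaries, or with at least three boundary edges, which are never
far from each other
-/

set_option autoImplicit false
set_option linter.unusedSectionVars false
set_option synthInstance.maxHeartbeats 400000
set_option synthInstance.maxSize 2048

namespace Pool.Agent.Run7.h335.FM

open Finset Pool.Agent.TH362.TF Pool.Agent.TH362.TF.Four Pool.Agent.R890.FF Pool.Agent.TH676.Z
open Pool.Agent.R926.SC Pool.Agent.N410.DC

variable {V E : Type} [Fintype V] [DecidableEq V] [Fintype E] [DecidableEq E]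

/-- among any `k` disjoint sets of vertices whose numbers of boundary edges satisfy `P`, without
boundary edges in `F`, two are close -/
def FarK (k : ℕ) (P : ℕ → Prop) (s t : E → V) (F : Finset E) : Prop :=
  ∀ X : Fin k → Finset V, (∀ i j, i ≠ j → Disjoint (X i) (X j)) →
    (∀ i, Disjoint (crs s t (X i)) F) → (∀ i, P (crs s t (X i)).card) →
    ∃ i j, i ≠ j ∧ CloseS s t (X i) (X j)

theorem closeS_nb {s t : E → V} {π : V → V}
    (hM : Mq (fun e => π (s e)) (fun e => π (t e)) univ) {x y : V} (hXY : x ≠ y)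
    (hcl : CloseS s t (univ.filter (fun u => π u ∈ ({x} : Finset V)))
      (univ.filter (fun u => π u ∈ ({y} : Finset V)))) :
    Nb (fun e => π (s e)) (fun e => π (t e)) univ x y := by
  classical
  set s' : E → V := fun e => π (s e) with hs'
  set t' : E → V := fun e => π (t e) with ht'
  by_contra hno
  have hcl' := closeS_map π hcl
  have hends : ∀ {y a : V} {e : E}, JnS (π ∘ s) (π ∘ t) {y} a e → Ends s' t' y a e := by
    intro y a e he
    rcases he with ⟨h2, h3⟩ | ⟨h2, h3⟩
    · exact Or.inl ⟨mem_singleton.1 h2, h3⟩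
    · exact Or.inr ⟨h2, mem_singleton.1 h3⟩
  have hends' : ∀ {y a : V} {e : E}, Ends s' t' y a e → Ends s' t' a y e := by
    intro y a e he
    rcases he with ⟨h2, h3⟩ | ⟨h2, h3⟩
    · exact Or.inr ⟨h2, h3⟩
    · exact Or.inl ⟨h2, h3⟩
  rcases hcl' with ⟨e, hE⟩ | ⟨e, f, e', f', a, b, hne, E1, E2, E3, E4⟩
  · refine hno ⟨hXY.symm, e, mem_univ _, ?_⟩
    rcases hE with ⟨h2, h3⟩ | ⟨h2, h3⟩
    · exact Or.inl ⟨mem_singleton.1 h2, mem_singleton.1 h3⟩
    · exact Or.inr ⟨mem_singleton.1 h2, mem_singleton.1 h3⟩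
  · have mid : ∀ (e f : E) (a : V), Ends s' t' x a e → Ends s' t' a y f →
        a ≠ x ∧ a ≠ y := by
      intro e f a k1 k2
      refine ⟨fun k3 => ?_, fun k3 => ?_⟩
      · rw [k3] at k2
        exact hno ⟨hXY.symm, f, mem_univ _, k2⟩
      · rw [k3] at k1
        exact hno ⟨hXY.symm, e, mem_univ _, k1⟩
    have F1 := hends E1
    have F2 := hends' (hends E2)
    have F3 := hends E3
    have F4 := hends' (hends E4)
    obtain ⟨A1, A2⟩ := mid e f a F1 F2
    obtain ⟨B1, B2⟩ := mid e' f' b F3 F4
    by_cases hab : a = b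
    · rw [← hab] at F3 F4
      have k3 := hM.nopar A1.symm (mem_univ e) (mem_univ e') F1 F3
      have k4 := hM.nopar A2 (mem_univ f) (mem_univ f') F2 F4
      rcases hne with hne | hne
      · exact hne k3
      · exact hne k4
    · exact hM.four (a := x) (b := a) (c := y) (d := b) hXY hab
        ⟨A1, e, mem_univ _, F1⟩ ⟨A2.symm, f, mem_univ _, F2⟩
        (nb_comm ⟨B2.symm, f', mem_univ _, F4⟩)
        (nb_comm ⟨B1, e', mem_univ _, F3⟩)

/-- every minimal quotient has `k` pairwise nonadjacent vertices whose degrees satisfy `P` -/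
def HasInd (V E : Type) [Fintype V] [DecidableEq V] [Fintype E] [DecidableEq E] (k : ℕ)
    (P : ℕ → Prop) : Prop :=
  ∀ s t : E → V, Mq s t univ → ∃ I : Finset V, I.card = k ∧ (∀ y ∈ I, P (ct s t y).card) ∧
    ∀ x ∈ I, ∀ y ∈ I, ¬ Nb s t univ x y

theorem farK_flow {k : ℕ} {P : ℕ → Prop} (hk : HasInd V E k P) {s t : E → V}
    (h : FarK k P s t ∅) (h1 : N1 s t univ) : NZ s t univ ∨ PQ s t univ := by
  classical
  by_contra hc
  rw [not_or] at hc
  obtain ⟨π, hM⟩ := exists_Mq s t univ h1 hc.1 hc.2
  obtain ⟨I, hIc, hP, hi⟩ := hk _ _ hM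
  set φ := (Finset.equivFinOfCardEq hIc).symm with hφ
  have key : ∀ y : V, crs s t (univ.filter (fun u => π u ∈ ({y} : Finset V))) =
      ct (fun e => π (s e)) (fun e => π (t e)) y := by
    intro y
    ext e
    rw [mem_crs, mem_ct]
    simp
  obtain ⟨i, j, hij, hcl⟩ := h (fun i => univ.filter (fun u => π u ∈ ({(φ i : V)} : Finset V)))
    (fun i j hij => by
      rw [disjoint_left]
      intro v hv hv'
      have h3 := mem_singleton.1 (mem_filter.1 hv).2
      rw [mem_singleton.1 (mem_filter.1 hv').2] at h3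
      exact hij (φ.injective (Subtype.ext h3.symm)))
    (fun i => disjoint_empty_right _)
    (fun i => by
      rw [key]
      exact hP _ (φ i).2)
  have hXY : (φ i : V) ≠ φ j := fun h2 => hij (φ.injective (Subtype.ext h2))
  exact hi _ (φ i).2 _ (φ j).2 (closeS_nb hM hXY hcl)

theorem inh_farK {k : ℕ} {P : ℕ → Prop} (hk : HasInd V E k P) :
    Inh (V := V) (E := E) (FarK k P) where
  map := by
    intro s t F ρ h X hX hF h3
    simp only [crs_comp] at hF h3
    obtain ⟨i, j, hij, hc⟩ := h _ (fun i j hij => by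
      rw [disjoint_left]
      intro v hv hv'
      exact (disjoint_left.1 (hX i j hij)) (mem_filter.1 hv).2 (mem_filter.1 hv').2) hF h3
    exact ⟨i, j, hij, closeS_map ρ hc⟩
  loops := by
    intro s t F h hl X hX _ h3
    refine h X hX (fun i => ?_) h3
    rw [disjoint_left]
    intro e he heF
    rw [mem_crs, hl e heF] at he
    exact he Iff.rfl
  flow := fun h h1 => farK_flow hk h h1

/-- seven pairwise nonadjacent vertices of degree at least three -/
theorem hasInd7 : HasInd V E 7 (fun n => 3 ≤ n) := by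
  classical
  intro s t h
  obtain ⟨I, hIc, hnb, hi⟩ := Pool.Agent.R545.IN.Mq_ind7 h
  refine ⟨I, hIc, fun y hy => ?_, hi⟩
  obtain ⟨z, hz⟩ := hnb y hy
  have hd1 : (ct s t y).card ≠ 1 := h.n1 _
  have hd2 : (ct s t y).card ≠ 2 := by
    have h1 := h.nb_ne_two y
    rw [← h.cut_nb y] at h1
    exact h1
  have hd0 : (ct s t y).card ≠ 0 := by
    have h1 : (univ.filter (Nb s t univ y)).card ≠ 0 :=
      (card_pos.2 ⟨z, mem_filter.2 ⟨mem_univ _, hz⟩⟩).ne'
    rw [← h.cut_nb y] at h1
    exact h1
  omega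

section ramsey

variable {R : V → V → Prop} [∀ y, DecidablePred (R y)]

open Pool.Agent.R545.IN

/-- a cubic graph has an even number of vertices -/
theorem cubic_even (h : Good R) {W : Finset V} (h3 : ∀ v ∈ W, (W.filter (R v)).card = 3) :
    Even W.card := by
  classical
  let G : SimpleGraph V :=
    { Adj := fun x y => x ∈ W ∧ y ∈ W ∧ R x y
      symm := ⟨fun _ _ h' => ⟨h'.2.1, h'.1, h.symm h'.2.2⟩⟩
      loopless := ⟨fun x h' => h.irr x h'.2.2⟩ }
  have h1 := G.even_card_odd_degree_vertices
  have hd : ∀ v, G.neighborFinset v = if v ∈ W then W.filter (R v) else ∅ := by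
    intro v
    ext y
    rw [SimpleGraph.mem_neighborFinset]
    change (v ∈ W ∧ y ∈ W ∧ R v y) ↔ _
    split_ifs with hv
    · simp only [hv, true_and, mem_filter]
    · simp only [hv, false_and, notMem_empty]
  have h2 : univ.filter (fun v => Odd (G.degree v)) = W := by
    ext v
    rw [mem_filter, ← SimpleGraph.card_neighborFinset_eq_degree, hd v]
    constructor
    · rintro ⟨_, h4⟩
      by_contra hv
      rw [if_neg hv] at h4
      simp at h4
    · intro hv
      rw [if_pos hv, h3 v hv]
      exact ⟨mem_univ _, by decide⟩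
  rwa [h2] at h1

/-- eleven vertices are enough for five pairwise nonadjacent ones -/
theorem thr5' (h : Good R) : Thr R 11 5 := by
  intro W hW
  by_contra hno
  have h12 : ¬ 12 ≤ W.card := fun h' => hno (thr5 h W h')
  have hc : W.card = 11 := by omega
  have hA : ∀ v ∈ W, 3 ≤ (W.filter (R v)).card := fun v hv => by
    have := lemA h (thr4 h) hv hno
    omega
  have h3 : ∀ v ∈ W, (W.filter (R v)).card = 3 := by
    intro v hv
    obtain ⟨a, ha⟩ := card_pos.1 (show 0 < (W.filter (R v)).card by have := hA v hv; omega)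
    have h1 := lemC h hv ha hno
    have h2 := hA v hv
    have h4 := hA a (mem_filter.1 ha).1
    omega
  have := cubic_even h h3
  rw [hc] at this
  exact absurd this (by decide)

/-- fifteen vertices are enough for six pairwise nonadjacent ones -/
theorem thr6' (h : Good R) : Thr R 15 6 := by
  intro W hW
  by_contra hno
  have hA : ∀ v ∈ W, 4 ≤ (W.filter (R v)).card := fun v hv => by
    have := lemA h (thr5' h) hv hno
    omega
  obtain ⟨v, hv⟩ := card_pos.1 (show 0 < W.card by omega)
  obtain ⟨a, ha⟩ := card_pos.1 (show 0 < (W.filter (R v)).card by have := hA v hv; omega)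
  have h1 := lemC h hv ha hno
  have h2 := hA v hv
  have h4 := hA a (mem_filter.1 ha).1
  omega

end ramsey

/-- a minimal quotient has fifteen vertices of degree three or five -/
theorem fifteen {s t : E → V} (h : Mq s t univ) :
    15 ≤ (univ.filter (fun y => (ct s t y).card = 3 ∨ (ct s t y).card = 5)).card := by
  classical
  set d : V → ℕ := fun y => (ct s t y).card with hd
  have hd1 : ∀ y, d y ≠ 1 := fun y => h.n1 _
  have hd2 : ∀ y, d y ≠ 2 := fun y => by
    have h1 := h.nb_ne_two y
    rw [← h.cut_nb y] at h1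
    exact h1
  set N : Finset V := univ.filter (fun y => d y ≠ 0) with hN
  have hN3 : ∀ y ∈ N, 3 ≤ d y := by
    intro y hy
    have h1 := (mem_filter.1 hy).2
    have h2 := hd1 y
    have h3 := hd2 y
    omega
  have hO : ∀ y, y ∈ odd s t univ ↔ d y % 2 = 1 := fun y => odd_iff_cut s t univ y
  have hON : odd s t univ ⊆ N := by
    intro y hy
    rw [hO] at hy
    refine mem_filter.2 ⟨mem_univ _, fun h0 => ?_⟩
    rw [h0] at hy
    exact absurd hy (by decide)
  have h18 := h.odd18
  have hNc : 18 ≤ N.card := h18.trans (card_le_card hON)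
  have heN : eIn s t univ = eIn s t N := by
    refine (Subset.antisymm (fun e he => ?_) (eIn_mono s t (subset_univ _)))
    have h1 := mem_eIn.1 he
    have h2 : ∀ y, e ∈ ct s t y → y ∈ N := fun y hy =>
      mem_filter.2 ⟨mem_univ _, (card_pos.2 ⟨e, hy⟩).ne'⟩
    refine mem_eIn.2 ⟨h2 _ ?_, h2 _ ?_, h1.2.2⟩
    · rw [mem_ct]
      intro h3
      exact h1.2.2 (h3.1 rfl).symm
    · rw [mem_ct]
      intro h3
      exact h1.2.2 (h3.2 rfl)
  have hsum : ∑ y ∈ N, d y = 2 * (eIn s t N).card := by
    rw [← heN, ← sum_ct s t]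
    refine sum_subset (subset_univ _) fun y _ hy => ?_
    by_contra h0
    exact hy (mem_filter.2 ⟨mem_univ _, h0⟩)
  have hsp := sparse h N (by omega)
  -- the weights
  have hc1 : ∑ y ∈ N, (4 + (if d y = 5 then 1 else 0) + 3 * (if d y % 2 = 1 ∧ 7 ≤ d y then 1 else 0)) ≤
      ∑ y ∈ N, (d y + (if d y = 3 then 1 else 0)) := by
    refine sum_le_sum fun y hy => ?_
    have h1 := hN3 y hy
    split_ifs <;> omega
  rw [sum_add_distrib, sum_add_distrib, sum_add_distrib, sum_const, smul_eq_mul, ← mul_sum,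
    sum_boole, sum_boole, sum_boole] at hc1
  simp only [Nat.cast_id] at hc1
  have h2 : (odd s t univ).card ≤ (N.filter (fun y => d y = 3 ∨ d y = 5)).card +
      (N.filter (fun y => d y % 2 = 1 ∧ 7 ≤ d y)).card := by
    refine le_trans (card_le_card fun y hy => ?_) (card_union_le _ _)
    have h1 := hN3 y (hON hy)
    have h3 := (hO y).1 hy
    rw [mem_union]
    by_cases h7 : 7 ≤ d y
    · exact Or.inr (mem_filter.2 ⟨hON hy, h3, h7⟩)
    · exact Or.inl (mem_filter.2 ⟨hON hy, by omega⟩)
  have h3 : (N.filter (fun y => d y = 3 ∨ d y = 5)).card =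
      (N.filter (fun y => d y = 3)).card + (N.filter (fun y => d y = 5)).card := by
    rw [filter_or, card_union_of_disjoint]
    rw [disjoint_left]
    intro y h4 h5
    have h6 := (mem_filter.1 h4).2
    have h7 := (mem_filter.1 h5).2
    omega
  have h4 : (N.filter (fun y => d y = 3 ∨ d y = 5)).card ≤
      (univ.filter (fun y => d y = 3 ∨ d y = 5)).card :=
    card_le_card (filter_subset_filter _ (subset_univ _))
  change 15 ≤ (univ.filter (fun y => d y = 3 ∨ d y = 5)).card
  omega

/-- six pairwise nonadjacent vertices of degree three or five -/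
theorem hasInd6 : HasInd V E 6 (fun n => n = 3 ∨ n = 5) := by
  classical
  intro s t h
  obtain ⟨I, hI, hIc, hi⟩ := thr6' (Pool.Agent.R545.IN.good_nb h) _ (fifteen h)
  exact ⟨I, hIc, fun y hy => (mem_filter.1 (hI hy)).2, hi⟩

/-- the union of the two conditions -/
def Far67 (s t : E → V) (F : Finset E) : Prop :=
  FarK 7 (fun n => 3 ≤ n) s t F ∨ FarK 6 (fun n => n = 3 ∨ n = 5) s t F

theorem inh_or {A B : (E → V) → (E → V) → Finset E → Prop} (hA : Inh A) (hB : Inh B) :
    Inh (fun s t F => A s t F ∨ B s t F) where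
  map := fun ρ h => h.elim (fun h => Or.inl (hA.map ρ h)) (fun h => Or.inr (hB.map ρ h))
  loops := fun h hl => h.elim (fun h => Or.inl (hA.loops h hl)) (fun h => Or.inr (hB.loops h hl))
  flow := fun h h1 => h.elim (fun h => hA.flow h h1) (fun h => hB.flow h h1)

theorem inh_far67 : Inh (V := V) (E := E) Far67 :=
  inh_or (inh_farK hasInd7) (inh_farK hasInd6)

end Pool.Agent.Run7.h335.FM
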